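import Pool.Agent.J4H57.OC.A3

/-!
# Potentials of Gaussian convolutions (project OC, S_APX), part 4: approximation in `L¹`
-/

set_option autoImplicit false

namespace Pool.Agent.J4H57.OC

open MeasureTheory Set Filter Topology
open scoped ENNReal InnerProductSpace Convolution
open Pool.Agent.W695.KH (Eu EU Sm Pot)
open Pool.Agent.J4H58.OC (LDn S_APX)

variable {n : ℕ}

/-- `L¹` continuity of translations -/
theorem transl (f : Eu (Fin n) → ℝ) (hf : Integrable f) (ε : ℝ) (hε : 0 < ε) :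
    ∃ δ : ℝ, 0 < δ ∧ ∀ w : Eu (Fin n), ‖w‖ < δ → ∫ x, |f (x - w) - f x| ≤ ε := by
  obtain ⟨φ, hφc, hφ1, hφ, hφi⟩ := hf.exists_hasCompactSupport_integral_sub_le
    (by positivity : 0 < ε / 4)
  set K : Set (Eu (Fin n)) := Metric.cthickening 1 (tsupport φ) with hK
  have hKc : IsCompact K := hφc.isCompact.cthickening
  have hKm : MeasurableSet K := hKc.isClosed.measurableSet
  set V : ℝ := (volume K).toReal with hV
  have hV0 : 0 ≤ V := ENNReal.toReal_nonneg
  have hu := hφc.uniformContinuous_of_continuous hφ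
  obtain ⟨δ, hδ, hδ2⟩ := Metric.uniformContinuous_iff.1 hu (ε / (4 * (V + 1))) (by positivity)
  refine ⟨min δ 1, lt_min hδ one_pos, fun w hw => ?_⟩
  have hw1 : ‖w‖ < δ := lt_of_lt_of_le hw (min_le_left _ _)
  have hw2 : ‖w‖ < 1 := lt_of_lt_of_le hw (min_le_right _ _)
  have hb : ∀ x, |φ (x - w) - φ x| ≤ K.indicator (fun _ => ε / (4 * (V + 1))) x := by
    intro x
    by_cases hx : x ∈ K
    · rw [indicator_of_mem hx]
      have h1 := hδ2 (a := x - w) (b := x) (by
        rw [dist_eq_norm, sub_sub_cancel_left, norm_neg]; exact hw1)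
      rw [Real.dist_eq] at h1
      exact h1.le
    · rw [indicator_of_notMem hx]
      have h1 : x ∉ tsupport φ := fun h => hx (Metric.self_subset_cthickening _ h)
      have h2 : x - w ∉ tsupport φ := fun h => hx (by
        refine Metric.mem_cthickening_of_dist_le x (x - w) 1 _ h ?_
        rw [dist_eq_norm, sub_sub_cancel]; exact hw2.le)
      rw [image_eq_zero_of_notMem_tsupport h1, image_eq_zero_of_notMem_tsupport h2]
      simp
  have hsh : ∀ g : Eu (Fin n) → ℝ, Integrable g → Integrable fun x => g (x - w) :=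
    fun g hg => hg.comp_sub_right w
  have i1 : Integrable fun x => |f (x - w) - φ (x - w)| := ((hsh f hf).sub (hsh φ hφi)).abs
  have i2 : Integrable fun x => |φ (x - w) - φ x| := ((hsh φ hφi).sub hφi).abs
  have i3 : Integrable fun x => |f x - φ x| := (hf.sub hφi).abs
  have i0 : Integrable fun x => |f (x - w) - f x| := ((hsh f hf).sub hf).abs
  have e1 : ∫ x, |f (x - w) - φ (x - w)| ≤ ε / 4 := by
    rw [integral_sub_right_eq_self (fun x => |f x - φ x|) w]
    exact hφ1
  have e3 : ∫ x, |f x - φ x| ≤ ε / 4 := hφ1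
  have e2 : ∫ x, |φ (x - w) - φ x| ≤ ε / 4 := by
    have hi : Integrable (K.indicator (fun _ : Eu (Fin n) => ε / (4 * (V + 1)))) := by
      rw [integrable_indicator_iff hKm]
      exact integrableOn_const hKc.measure_lt_top.ne
    calc ∫ x, |φ (x - w) - φ x| ≤ ∫ x, K.indicator (fun _ => ε / (4 * (V + 1))) x :=
          integral_mono i2 hi hb
      _ = V * (ε / (4 * (V + 1))) := by
          rw [integral_indicator hKm, setIntegral_const, smul_eq_mul]; rfl
      _ ≤ (V + 1) * (ε / (4 * (V + 1))) := by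
          apply mul_le_mul_of_nonneg_right _ (by positivity)
          linarith
      _ = ε / 4 := by field_simp
  calc ∫ x, |f (x - w) - f x|
      ≤ ∫ x, (|f (x - w) - φ (x - w)| + |φ (x - w) - φ x| + |f x - φ x|) := by
        refine integral_mono i0 ((i1.add i2).add i3) fun x => ?_
        have e : f (x - w) - f x = (f (x - w) - φ (x - w)) + (φ (x - w) - φ x) + (φ x - f x) := by
          ring
        calc |f (x - w) - f x| ≤ |f (x - w) - φ (x - w)| + |φ (x - w) - φ x| + |φ x - f x| := by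
              rw [e]; exact abs_add_three _ _ _
          _ = _ := by rw [abs_sub_comm (φ x) (f x)]
    _ = (∫ x, |f (x - w) - φ (x - w)|) + (∫ x, |φ (x - w) - φ x|) + ∫ x, |f x - φ x| := by
        have i12 : Integrable fun x => |f (x - w) - φ (x - w)| + |φ (x - w) - φ x| := i1.add i2
        rw [integral_add i12 i3, integral_add i1 i2]
    _ ≤ ε := by linarith

/-- second moment of the kernel -/
theorem G2_scale {A : ℝ} (hA : 0 < A) :
    ∫ z : Eu (Fin n), G A z * ‖z‖ ^ 2 =
      (∫ z : Eu (Fin n), G 1 z * ‖z‖ ^ 2) / Zf n 1 / A * Zf n A := by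
  set c : ℝ := Real.sqrt A with hc
  have hc0 : 0 < c := Real.sqrt_pos.2 hA
  have hc2 : c ^ 2 = A := Real.sq_sqrt hA.le
  have h1 := Measure.integral_comp_smul (volume : Measure (Eu (Fin n))) (fun z => G 1 z * ‖z‖ ^ 2) c
  have h2 := Measure.integral_comp_smul (volume : Measure (Eu (Fin n))) (fun z => G 1 z) c
  have e1 : ∀ z : Eu (Fin n), G 1 (c • z) = G A z := by
    intro z
    unfold G
    rw [norm_smul, mul_pow, Real.norm_eq_abs, sq_abs, hc2]
    congr 1; ring
  have e2 : ∀ z : Eu (Fin n), G 1 (c • z) * ‖c • z‖ ^ 2 = A * (G A z * ‖z‖ ^ 2) := by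
    intro z
    rw [e1, norm_smul, mul_pow, Real.norm_eq_abs, sq_abs, hc2]
    ring
  simp_rw [e2] at h1
  simp_rw [e1] at h2
  rw [integral_const_mul, smul_eq_mul] at h1
  rw [smul_eq_mul] at h2
  change Zf n A = _ * Zf n 1 at h2
  have hZ := Z_pos (n := n) one_pos
  set κ : ℝ := |(c ^ Module.finrank ℝ (Eu (Fin n)))⁻¹| with hκ
  rw [h2]
  have h3 : (∫ z : Eu (Fin n), G A z * ‖z‖ ^ 2) =
      κ * (∫ z : Eu (Fin n), G 1 z * ‖z‖ ^ 2) / A := by
    rw [eq_div_iff hA.ne', ← h1]; ring
  rw [h3]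
  field_simp

theorem approx (ρ : Eu (Fin n) → ℝ) (hρ : LDn ρ) (ε : ℝ) (hε : 0 < ε) :
    ∃ A : ℝ, 0 < A ∧ ∫ x, |Pf ρ A x / Zf n A - ρ x| ≤ ε := by
  obtain ⟨δ, hδ, hδ2⟩ := transl ρ hρ.int (ε / 2) (by positivity)
  set C : ℝ := (∫ z : Eu (Fin n), G 1 z * ‖z‖ ^ 2) / Zf n 1 with hC
  have hC0 : 0 ≤ C := div_nonneg (integral_nonneg fun z =>
    mul_nonneg (G_pos _ _).le (sq_nonneg _)) (Z_pos one_pos).le
  set A : ℝ := 4 * (C + 1) / (δ ^ 2 * ε) with hAd
  have hA : 0 < A := by positivity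
  refine ⟨A, hA, ?_⟩
  have hZ := Z_pos (n := n) hA
  set ω : Eu (Fin n) → ℝ := fun w => ∫ x, |ρ (x - w) - ρ x| with hω
  have hsh : ∀ w, Integrable fun x => ρ (x - w) := fun w => hρ.int.comp_sub_right w
  have hω2 : ∀ w, ω w ≤ 2 := by
    intro w
    calc ω w ≤ ∫ x, (ρ (x - w) + ρ x) := by
          refine integral_mono ((hsh w).sub hρ.int).abs ((hsh w).add hρ.int) fun x => ?_
          calc |ρ (x - w) - ρ x| ≤ |ρ (x - w)| + |ρ x| := abs_sub _ _
            _ = _ := by rw [abs_of_nonneg (hρ.nonneg _), abs_of_nonneg (hρ.nonneg _)]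
      _ = 2 := by
          rw [integral_add (hsh w) hρ.int, integral_sub_right_eq_self ρ w, hρ.one]; norm_num
  have hωb : ∀ w, ω w ≤ ε / 2 + 2 / δ ^ 2 * ‖w‖ ^ 2 := by
    intro w
    by_cases hw : ‖w‖ < δ
    · have := hδ2 w hw
      have h2 : 0 ≤ 2 / δ ^ 2 * ‖w‖ ^ 2 := by positivity
      calc ω w ≤ ε / 2 := this
        _ ≤ _ := by linarith
    · push Not at hw
      have h2 : 1 ≤ ‖w‖ ^ 2 / δ ^ 2 := by
        rw [one_le_div (by positivity)]
        gcongr
      calc ω w ≤ 2 := hω2 w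
        _ ≤ ε / 2 + 2 * (‖w‖ ^ 2 / δ ^ 2) := by linarith
        _ = _ := by ring
  -- the difference as an average
  have hrep : ∀ x, Pf ρ A x / Zf n A - ρ x = ∫ w, (ρ (x - w) - ρ x) * (G A w / Zf n A) := by
    intro x
    have i1 : Integrable fun w => ρ (x - w) * G A w := by
      have := (intP hρ hA x).comp_sub_left x
      simpa [sub_sub_cancel] using this
    have e1 : Pf ρ A x = ∫ w, ρ (x - w) * G A w := by
      have := integral_sub_left_eq_self (fun w => ρ (x - w) * G A w) volume x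
      rw [← this]
      simp only [sub_sub_cancel]
      rfl
    have e2 : ∀ w, (ρ (x - w) - ρ x) * (G A w / Zf n A) =
        (ρ (x - w) * G A w - ρ x * G A w) / Zf n A := by intro w; ring
    simp_rw [e2]
    rw [integral_div, integral_sub i1 ((G_int hA).const_mul _), integral_const_mul, ← e1]
    change _ = (Pf ρ A x - ρ x * Zf n A) / Zf n A
    field_simp
  have hm : Measurable fun p : Eu (Fin n) × Eu (Fin n) =>
      ‖(ρ (p.1 - p.2) - ρ p.1) * (G A p.2 / Zf n A)‖ₑ := by
    have h1 : Measurable fun p : Eu (Fin n) × Eu (Fin n) => ρ (p.1 - p.2) :=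
      hρ.meas.comp (measurable_fst.sub measurable_snd)
    have h2 : Measurable fun p : Eu (Fin n) × Eu (Fin n) => ρ p.1 := hρ.meas.comp measurable_fst
    have h3 : Measurable fun p : Eu (Fin n) × Eu (Fin n) => G A p.2 / Zf n A :=
      ((G_cont A).measurable.comp measurable_snd).div_const _
    exact ((h1.sub h2).mul h3).enorm
  have hint : Integrable fun x => |Pf ρ A x / Zf n A - ρ x| :=
    (((P_int hρ hA).div_const _).sub hρ.int).abs
  have hi2 : Integrable fun w : Eu (Fin n) => (ε / 2 + 2 / δ ^ 2 * ‖w‖ ^ 2) * (G A w / Zf n A) := by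
    have := (((G_int (n := n) hA).const_mul (ε / 2)).add
      ((G2_int (n := n) hA).const_mul (2 / δ ^ 2))).div_const (Zf n A)
    refine this.congr (Filter.Eventually.of_forall fun w => ?_)
    simp only [Pi.add_apply]
    ring
  have hval : ∫ w : Eu (Fin n), (ε / 2 + 2 / δ ^ 2 * ‖w‖ ^ 2) * (G A w / Zf n A) ≤ ε := by
    have e : ∀ w : Eu (Fin n), (ε / 2 + 2 / δ ^ 2 * ‖w‖ ^ 2) * (G A w / Zf n A) =
        (ε / 2 * G A w + 2 / δ ^ 2 * (G A w * ‖w‖ ^ 2)) / Zf n A := by intro w; ring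
    simp_rw [e]
    rw [integral_div, integral_add ((G_int hA).const_mul _) ((G2_int hA).const_mul _),
      integral_const_mul, integral_const_mul, G2_scale hA, ← hC]
    change (ε / 2 * Zf n A + 2 / δ ^ 2 * (C / A * Zf n A)) / Zf n A ≤ ε
    have e2 : (ε / 2 * Zf n A + 2 / δ ^ 2 * (C / A * Zf n A)) / Zf n A =
        ε / 2 + 2 / δ ^ 2 * (C / A) := by field_simp
    rw [e2]
    have e3 : 2 / δ ^ 2 * (C / A) = ε / 2 * (C / (C + 1)) := by
      rw [hAd]; field_simp; ring
    rw [e3]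
    have e4 : C / (C + 1) ≤ 1 := by rw [div_le_one (by positivity)]; linarith
    nlinarith
  have key : ENNReal.ofReal (∫ x, |Pf ρ A x / Zf n A - ρ x|) ≤ ENNReal.ofReal ε := by
    calc ENNReal.ofReal (∫ x, |Pf ρ A x / Zf n A - ρ x|)
        = ∫⁻ x, ENNReal.ofReal |Pf ρ A x / Zf n A - ρ x| :=
          ofReal_integral_eq_lintegral_ofReal hint (Filter.Eventually.of_forall fun x => abs_nonneg _)
      _ ≤ ∫⁻ x, ∫⁻ w, ‖(ρ (x - w) - ρ x) * (G A w / Zf n A)‖ₑ := by
          refine lintegral_mono fun x => ?_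
          rw [hrep x]
          have := enorm_integral_le_lintegral_enorm (μ := (volume : Measure (Eu (Fin n))))
            (fun w => (ρ (x - w) - ρ x) * (G A w / Zf n A))
          rwa [Real.enorm_eq_ofReal_abs] at this
      _ = ∫⁻ w, ∫⁻ x, ‖(ρ (x - w) - ρ x) * (G A w / Zf n A)‖ₑ :=
          lintegral_lintegral_swap hm.aemeasurable
      _ ≤ ∫⁻ w, ENNReal.ofReal ((ε / 2 + 2 / δ ^ 2 * ‖w‖ ^ 2) * (G A w / Zf n A)) := by
          refine lintegral_mono fun w => ?_
          have e : ∀ x, ‖(ρ (x - w) - ρ x) * (G A w / Zf n A)‖ₑ =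
              ENNReal.ofReal (|ρ (x - w) - ρ x| * (G A w / Zf n A)) := by
            intro x
            rw [Real.enorm_eq_ofReal_abs, abs_mul, abs_of_pos (div_pos (G_pos A w) hZ)]
          simp_rw [e]
          have i5 : Integrable fun x => |ρ (x - w) - ρ x| * (G A w / Zf n A) :=
            (((hsh w).sub hρ.int).abs).mul_const _
          rw [← ofReal_integral_eq_lintegral_ofReal i5
            (Filter.Eventually.of_forall fun x => mul_nonneg (abs_nonneg _)
              (div_pos (G_pos A w) hZ).le)]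
          rw [integral_mul_const]
          exact ENNReal.ofReal_le_ofReal (mul_le_mul_of_nonneg_right (hωb w)
            (div_pos (G_pos A w) hZ).le)
      _ = ENNReal.ofReal (∫ w : Eu (Fin n), (ε / 2 + 2 / δ ^ 2 * ‖w‖ ^ 2) * (G A w / Zf n A)) := by
          rw [ofReal_integral_eq_lintegral_ofReal hi2]
          exact Filter.Eventually.of_forall fun w => mul_nonneg (by positivity)
            (div_pos (G_pos A w) hZ).le
      _ ≤ ENNReal.ofReal ε := ENNReal.ofReal_le_ofReal hval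
  exact (ENNReal.ofReal_le_ofReal_iff hε.le).1 key

/-- **OC-APX** -/
theorem t_APX : S_APX := by
  intro n ρ _ hρ ε hε
  obtain ⟨A, hA, h⟩ := approx ρ hρ ε hε
  refine ⟨Uf ρ A, bf ρ A, A, pot hρ hA, EU_one hρ hA, ?_⟩
  simp_rw [exp_U hρ hA]
  exact h

end Pool.Agent.J4H57.OC
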