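import Pool.Agent.W695.KH.Defs

/-!
# Potentials of Gaussian convolutions (project OC, S_APX), part 1: cocoercivity, the derivative
-/

set_option autoImplicit false

namespace Pool.Agent.J4H57.OC

open MeasureTheory Set Filter Topology
open scoped ENNReal InnerProductSpace
open Pool.Agent.W695.KH (Eu EU Sm Pot)

section coco

variable {F : Type*} [NormedAddCommGroup F] [InnerProductSpace ℝ F]

/-- cocoercivity of the gradient from the two quadratic bounds -/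
theorem coco (U : F → ℝ) (b : F → F) (A : ℝ) (hA : 0 < A)
    (h1 : ∀ x y, U x + ⟪b x, y - x⟫_ℝ ≤ U y)
    (h2 : ∀ x y, U y ≤ U x + ⟪b x, y - x⟫_ℝ + A / 2 * ‖y - x‖ ^ 2) (x y : F) :
    ‖b x - b y‖ ^ 2 ≤ A * ⟪b x - b y, x - y⟫_ℝ := by
  have key : ∀ x y, U x + ⟪b x, y - x⟫_ℝ + 1 / (2 * A) * ‖b y - b x‖ ^ 2 ≤ U y := by
    intro x y
    set d := b y - b x with hd
    have e1 := h1 x (y - (1 / A) • d)
    have e2 := h2 y (y - (1 / A) • d)
    have e3 : y - (1 / A) • d - y = -((1 / A) • d) := by abel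
    have e4 : y - (1 / A) • d - x = (y - x) - (1 / A) • d := by abel
    rw [e3, inner_neg_right, norm_neg, inner_smul_right, norm_smul] at e2
    rw [e4, inner_sub_right, inner_smul_right] at e1
    have e5 : ⟪b y, d⟫_ℝ - ⟪b x, d⟫_ℝ = ‖d‖ ^ 2 := by
      rw [← inner_sub_left, ← hd, real_inner_self_eq_norm_sq]
    have e6 : ‖(1 / A : ℝ)‖ = 1 / A := by rw [Real.norm_eq_abs, abs_of_pos (by positivity)]
    rw [e6] at e2
    have e7 : A / 2 * (1 / A * ‖d‖) ^ 2 = 1 / (2 * A) * ‖d‖ ^ 2 := by field_simp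
    rw [e7] at e2
    have e8 : 1 / A * ⟪b y, d⟫_ℝ = 1 / A * ⟪b x, d⟫_ℝ + 1 / A * ‖d‖ ^ 2 := by rw [← e5]; ring
    have e9 : 1 / A * ‖d‖ ^ 2 = 2 * (1 / (2 * A) * ‖d‖ ^ 2) := by field_simp
    linarith
  have k1 := key x y
  have k2 := key y x
  have e1 : ‖b y - b x‖ = ‖b x - b y‖ := norm_sub_rev _ _
  have e2 : ⟪b x - b y, x - y⟫_ℝ = -(⟪b x, y - x⟫_ℝ + ⟪b y, x - y⟫_ℝ) := by
    rw [inner_sub_left, ← neg_sub x y, inner_neg_right]; ring
  rw [e1] at k1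
  rw [e2]
  have e3 : 1 / A * ‖b x - b y‖ ^ 2 ≤ -(⟪b x, y - x⟫_ℝ + ⟪b y, x - y⟫_ℝ) := by
    have : 1 / A * ‖b x - b y‖ ^ 2 = 2 * (1 / (2 * A) * ‖b x - b y‖ ^ 2) := by field_simp
    linarith
  calc ‖b x - b y‖ ^ 2 = A * (1 / A * ‖b x - b y‖ ^ 2) := by field_simp
    _ ≤ _ := mul_le_mul_of_nonneg_left e3 hA.le

theorem lip_of_coco (b : F → F) (A : ℝ) (hA : 0 < A)
    (h : ∀ x y, ‖b x - b y‖ ^ 2 ≤ A * ⟪b x - b y, x - y⟫_ℝ) (x y : F) :
    ‖b x - b y‖ ≤ A * ‖x - y‖ := by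
  rcases eq_or_lt_of_le (norm_nonneg (b x - b y)) with h0 | h0
  · rw [← h0]; positivity
  · have h1 : ‖b x - b y‖ * ‖b x - b y‖ ≤ ‖b x - b y‖ * (A * ‖x - y‖) := by
      calc ‖b x - b y‖ * ‖b x - b y‖ = ‖b x - b y‖ ^ 2 := by ring
        _ ≤ A * ⟪b x - b y, x - y⟫_ℝ := h x y
        _ ≤ A * (‖b x - b y‖ * ‖x - y‖) :=
            mul_le_mul_of_nonneg_left (real_inner_le_norm _ _) hA.le
        _ = _ := by ring
    exact le_of_mul_le_mul_left h1 h0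

theorem contr_of_coco (b : F → F) (A : ℝ) (hA : 0 < A)
    (h : ∀ x y, ‖b x - b y‖ ^ 2 ≤ A * ⟪b x - b y, x - y⟫_ℝ) (s : ℝ) (hs : 0 ≤ s) (hsA : s * A ≤ 1)
    (x y : F) : ‖(x - s • b x) - (y - s • b y)‖ ≤ ‖x - y‖ := by
  have e : (x - s • b x) - (y - s • b y) = (x - y) - s • (b x - b y) := by
    rw [smul_sub]; abel
  rw [e]
  have h0 : 0 ≤ ⟪b x - b y, x - y⟫_ℝ := by
    have := h x y
    by_contra hc
    push Not at hc
    nlinarith [sq_nonneg ‖b x - b y‖]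
  refine le_of_sq_le_sq ?_ (norm_nonneg _)
  rw [norm_sub_sq_real, inner_smul_right, norm_smul, mul_pow, Real.norm_eq_abs, sq_abs,
    real_inner_comm]
  have h1 : s ^ 2 * ‖b x - b y‖ ^ 2 ≤ s * ⟪b x - b y, x - y⟫_ℝ := by
    calc s ^ 2 * ‖b x - b y‖ ^ 2 ≤ s ^ 2 * (A * ⟪b x - b y, x - y⟫_ℝ) :=
          mul_le_mul_of_nonneg_left (h x y) (sq_nonneg s)
      _ = s * ((s * A) * ⟪b x - b y, x - y⟫_ℝ) := by ring
      _ ≤ s * (1 * ⟪b x - b y, x - y⟫_ℝ) := by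
          apply mul_le_mul_of_nonneg_left _ hs
          exact mul_le_mul_of_nonneg_right hsA h0
      _ = _ := by ring
  have h2 : 0 ≤ s * ⟪b x - b y, x - y⟫_ℝ := mul_nonneg hs h0
  linarith

/-- tangent lines below a convex function -/
theorem tangent (U : F → ℝ) (b : F → F) (hd : ∀ x, HasFDerivAt U (innerSL ℝ (b x)) x)
    (hc : ∀ x y, ∀ t : ℝ, 0 < t → t < 1 → U ((1 - t) • x + t • y) ≤ (1 - t) * U x + t * U y)
    (x y : F) : U x + ⟪b x, y - x⟫_ℝ ≤ U y := by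
  have h1 : HasDerivAt (fun t : ℝ => U (x + t • (y - x))) ⟪b x, y - x⟫_ℝ 0 := by
    have h2 : HasDerivAt (fun t : ℝ => x + t • (y - x)) (y - x) 0 := by
      simpa using ((hasDerivAt_id (0 : ℝ)).smul_const (y - x)).const_add x
    have h3 : HasFDerivAt U (innerSL ℝ (b x)) (x + (0 : ℝ) • (y - x)) := by
      rw [zero_smul, add_zero]; exact hd x
    have h4 := h3.comp_hasDerivAt (0 : ℝ) h2
    rw [innerSL_apply_apply] at h4
    exact h4
  have h5 := h1.tendsto_slope_zero_right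
  have h6 : ∀ᶠ t : ℝ in 𝓝[>] 0, t⁻¹ • (U (x + (0 + t) • (y - x)) - U (x + (0 : ℝ) • (y - x))) ≤
      U y - U x := by
    have h7 : Ioo (0 : ℝ) 1 ∈ 𝓝[>] (0 : ℝ) := Ioo_mem_nhdsGT one_pos
    filter_upwards [h7] with t ht
    have h8 := hc x y t ht.1 ht.2
    have e : (1 - t) • x + t • y = x + (0 + t) • (y - x) := by
      rw [sub_smul, one_smul, zero_add, smul_sub]; abel
    rw [e] at h8
    rw [zero_smul, add_zero, smul_eq_mul, inv_mul_le_iff₀ ht.1]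
    linarith
  have := le_of_tendsto h5 h6
  linarith

end coco

section kern

variable {n : ℕ}

/-- Gaussian kernel -/
noncomputable def G (A : ℝ) (z : Eu (Fin n)) : ℝ := Real.exp (-(A / 2 * ‖z‖ ^ 2))

theorem G_pos (A : ℝ) (z : Eu (Fin n)) : 0 < G A z := Real.exp_pos _

theorem G_cont (A : ℝ) : Continuous (G A : Eu (Fin n) → ℝ) := by
  unfold G; fun_prop

theorem G_le_one {A : ℝ} (hA : 0 < A) (z : Eu (Fin n)) : G A z ≤ 1 := by
  unfold G
  rw [Real.exp_le_one_iff]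
  have : 0 ≤ A / 2 * ‖z‖ ^ 2 := by positivity
  linarith

theorem G_int {A : ℝ} (hA : 0 < A) : Integrable (G A : Eu (Fin n) → ℝ) := by
  have h := (GaussianFourier.integrable_cexp_neg_mul_sq_norm_add (V := Eu (Fin n))
    (b := ((A / 2 : ℝ) : ℂ)) (by rw [Complex.ofReal_re]; positivity) 0 0).norm
  refine h.congr (Filter.Eventually.of_forall fun u => ?_)
  simp only [Complex.norm_exp]
  unfold G
  congr 1
  have : (-((A / 2 : ℝ) : ℂ) * (‖u‖ : ℂ) ^ 2 + 0 * ((⟪(0 : Eu (Fin n)), u⟫_ℝ : ℝ) : ℂ)) =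
    ((-(A / 2 * ‖u‖ ^ 2) : ℝ) : ℂ) := by
    push_cast
    ring
  rw [this, Complex.ofReal_re]

theorem G_sq {A : ℝ} (hA : 0 < A) (z : Eu (Fin n)) : G A z * ‖z‖ ^ 2 ≤ 4 / A * G (A / 2) z := by
  unfold G
  have h1 := Real.add_one_le_exp (A / 4 * ‖z‖ ^ 2)
  have e : Real.exp (-(A / 2 / 2 * ‖z‖ ^ 2)) =
      Real.exp (-(A / 2 * ‖z‖ ^ 2)) * Real.exp (A / 4 * ‖z‖ ^ 2) := by
    rw [← Real.exp_add]; congr 1; ring
  rw [e]
  have h2 : ‖z‖ ^ 2 ≤ 4 / A * Real.exp (A / 4 * ‖z‖ ^ 2) := by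
    calc ‖z‖ ^ 2 = 4 / A * (A / 4 * ‖z‖ ^ 2) := by field_simp
      _ ≤ 4 / A * Real.exp (A / 4 * ‖z‖ ^ 2) := by
        apply mul_le_mul_of_nonneg_left _ (by positivity)
        linarith
  calc Real.exp (-(A / 2 * ‖z‖ ^ 2)) * ‖z‖ ^ 2
      ≤ Real.exp (-(A / 2 * ‖z‖ ^ 2)) * (4 / A * Real.exp (A / 4 * ‖z‖ ^ 2)) :=
        mul_le_mul_of_nonneg_left h2 (Real.exp_pos _).le
    _ = _ := by ring

theorem G2_int {A : ℝ} (hA : 0 < A) : Integrable (fun z : Eu (Fin n) => G A z * ‖z‖ ^ 2) := by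
  have h := (G_int (n := n) (A := A / 2) (by positivity)).const_mul (4 / A)
  refine h.mono' ?_ (Filter.Eventually.of_forall fun z => ?_)
  · exact ((G_cont A).mul (continuous_norm.pow 2)).aestronglyMeasurable
  · rw [Real.norm_eq_abs, abs_of_nonneg (mul_nonneg (G_pos _ _).le (sq_nonneg _))]
    exact G_sq hA z

/-- a bound for the kernel times the norm -/
theorem G_norm {A : ℝ} (hA : 0 < A) (z : Eu (Fin n)) : G A z * ‖z‖ ≤ 1 + 4 / A := by
  have h1 : G A z * ‖z‖ ^ 2 ≤ 4 / A := by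
    calc G A z * ‖z‖ ^ 2 ≤ 4 / A * G (A / 2) z := G_sq hA z
      _ ≤ 4 / A * 1 := mul_le_mul_of_nonneg_left (G_le_one (by positivity) z) (by positivity)
      _ = _ := by ring
  have h2 : ‖z‖ ≤ 1 + ‖z‖ ^ 2 := by nlinarith [sq_nonneg (‖z‖ - 1)]
  calc G A z * ‖z‖ ≤ G A z * (1 + ‖z‖ ^ 2) := mul_le_mul_of_nonneg_left h2 (G_pos _ _).le
    _ = G A z + G A z * ‖z‖ ^ 2 := by ring
    _ ≤ 1 + 4 / A := add_le_add (G_le_one hA z) h1

theorem G_norm2 {A : ℝ} (hA : 0 < A) (z : Eu (Fin n)) : G A z * ‖z‖ ^ 2 ≤ 4 / A := by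
  calc G A z * ‖z‖ ^ 2 ≤ 4 / A * G (A / 2) z := G_sq hA z
    _ ≤ 4 / A * 1 := mul_le_mul_of_nonneg_left (G_le_one (by positivity) z) (by positivity)
    _ = _ := by ring

theorem G_der (A : ℝ) (c : ℝ) (y x : Eu (Fin n)) :
    HasFDerivAt (fun x : Eu (Fin n) => c * G A (x - y))
      ((c * G A (x - y)) • innerSL ℝ (-(A • (x - y)))) x := by
  have h1 : HasFDerivAt (fun x : Eu (Fin n) => x - y)
      (ContinuousLinearMap.id ℝ (Eu (Fin n))) x := (hasFDerivAt_id x).sub_const y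
  have h2 := h1.norm_sq
  have h3 := (((h2.const_mul (A / 2)).neg).exp).const_mul c
  refine (h3.congr_fderiv ?_)
  ext w
  simp only [_root_.smul_apply, _root_.neg_apply,
    ContinuousLinearMap.comp_apply, ContinuousLinearMap.id_apply, innerSL_apply_apply,
    smul_eq_mul, inner_neg_left, inner_smul_left]
  unfold G
  simp
  ring

end kern

end Pool.Agent.J4H57.OC
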