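import Pool.Agent.J4H57.OC.A1
import Pool.Agent.J4H58.OC.Stm3

/-!
# Potentials of Gaussian convolutions (project OC, S_APX), part 2: the convolution
-/

set_option autoImplicit false

namespace Pool.Agent.J4H57.OC

open MeasureTheory Set Filter Topology
open scoped ENNReal InnerProductSpace
open Pool.Agent.W695.KH (Eu EU Sm Pot)
open Pool.Agent.J4H58.OC (LDn S_APX)

variable {n : ℕ} {ρ : Eu (Fin n) → ℝ} {A : ℝ}

/-- convolution with the kernel -/
noncomputable def Pf (ρ : Eu (Fin n) → ℝ) (A : ℝ) (x : Eu (Fin n)) : ℝ := ∫ y, ρ y * G A (x - y)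

/-- first moment -/
noncomputable def Mf (ρ : Eu (Fin n) → ℝ) (A : ℝ) (x : Eu (Fin n)) : Eu (Fin n) :=
  ∫ y, (ρ y * G A (x - y)) • (x - y)

/-- second moment -/
noncomputable def Rf (ρ : Eu (Fin n) → ℝ) (A : ℝ) (x : Eu (Fin n)) : ℝ :=
  ∫ y, ρ y * (G A (x - y) * ‖x - y‖ ^ 2)

theorem intP (hρ : LDn ρ) (hA : 0 < A) (x : Eu (Fin n)) : Integrable fun y => ρ y * G A (x - y) := by
  refine hρ.int.mono' ?_ (Filter.Eventually.of_forall fun y => ?_)
  · exact (hρ.meas.mul ((G_cont A).comp (continuous_const.sub continuous_id)).measurable).aestronglyMeasurable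
  · rw [Real.norm_eq_abs, abs_of_nonneg (mul_nonneg (hρ.nonneg y) (G_pos _ _).le)]
    calc ρ y * G A (x - y) ≤ ρ y * 1 := mul_le_mul_of_nonneg_left (G_le_one hA _) (hρ.nonneg y)
      _ = ρ y := mul_one _

theorem intM (hρ : LDn ρ) (hA : 0 < A) (x : Eu (Fin n)) :
    Integrable fun y => (ρ y * G A (x - y)) • (x - y) := by
  refine (hρ.int.const_mul (1 + 4 / A)).mono' ?_ (Filter.Eventually.of_forall fun y => ?_)
  · exact ((hρ.meas.mul ((G_cont A).comp (continuous_const.sub continuous_id)).measurable).smul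
      (measurable_const.sub measurable_id)).aestronglyMeasurable
  · rw [norm_smul, Real.norm_eq_abs, abs_of_nonneg (mul_nonneg (hρ.nonneg y) (G_pos _ _).le)]
    calc ρ y * G A (x - y) * ‖x - y‖ = ρ y * (G A (x - y) * ‖x - y‖) := by ring
      _ ≤ ρ y * (1 + 4 / A) := mul_le_mul_of_nonneg_left (G_norm hA _) (hρ.nonneg y)
      _ = _ := by ring

theorem intR (hρ : LDn ρ) (hA : 0 < A) (x : Eu (Fin n)) :
    Integrable fun y => ρ y * (G A (x - y) * ‖x - y‖ ^ 2) := by
  refine (hρ.int.const_mul (4 / A)).mono' ?_ (Filter.Eventually.of_forall fun y => ?_)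
  · have hc : Continuous fun y : Eu (Fin n) => G A (x - y) * ‖x - y‖ ^ 2 :=
      ((G_cont A).comp (continuous_const.sub continuous_id)).mul
        ((continuous_const.sub continuous_id).norm.pow 2)
    exact (hρ.meas.mul hc.measurable).aestronglyMeasurable
  · rw [Real.norm_eq_abs, abs_of_nonneg (mul_nonneg (hρ.nonneg y)
      (mul_nonneg (G_pos _ _).le (sq_nonneg _)))]
    calc ρ y * (G A (x - y) * ‖x - y‖ ^ 2) ≤ ρ y * (4 / A) :=
        mul_le_mul_of_nonneg_left (G_norm2 hA _) (hρ.nonneg y)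
      _ = _ := by ring

theorem P_pos (hρ : LDn ρ) (hA : 0 < A) (x : Eu (Fin n)) : 0 < Pf ρ A x := by
  have h0 : 0 ≤ Pf ρ A x := integral_nonneg fun y => mul_nonneg (hρ.nonneg y) (G_pos _ _).le
  rcases eq_or_lt_of_le h0 with h | h
  · exfalso
    have h1 := (integral_eq_zero_iff_of_nonneg
      (fun y => mul_nonneg (hρ.nonneg y) (G_pos _ _).le) (intP hρ hA x)).1 h.symm
    have h2 : ρ =ᵐ[volume] 0 := by
      filter_upwards [h1] with y hy
      have : ρ y * G A (x - y) = 0 := hy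
      rcases mul_eq_zero.1 this with h3 | h3
      · exact h3
      · exact absurd h3 (G_pos _ _).ne'
    have h3 := hρ.one
    rw [integral_congr_ae h2] at h3
    simp at h3
  · exact h

theorem P_der (hρ : LDn ρ) (hA : 0 < A) (x : Eu (Fin n)) :
    HasFDerivAt (Pf ρ A) (innerSL ℝ (-(A • Mf ρ A x))) x := by
  have hmain := hasFDerivAt_integral_of_dominated_of_fderiv_le (𝕜 := ℝ) (s := univ) (x₀ := x)
    (μ := (volume : Measure (Eu (Fin n))))
    (F := fun (x y : Eu (Fin n)) => ρ y * G A (x - y))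
    (F' := fun (x y : Eu (Fin n)) => (ρ y * G A (x - y)) • innerSL ℝ (-(A • (x - y))))
    (bound := fun y => A * (1 + 4 / A) * ρ y) univ_mem
    (Filter.Eventually.of_forall fun z => (intP hρ hA z).aestronglyMeasurable)
    (intP hρ hA x) ?_ ?_ (hρ.int.const_mul _)
    (Filter.Eventually.of_forall fun y z _ => G_der A (ρ y) y z)
  · refine hmain.congr_fderiv ?_
    ext w
    have hi : Integrable (fun y : Eu (Fin n) => (ρ y * G A (x - y)) • innerSL ℝ (-(A • (x - y)))) := by
      refine (hρ.int.const_mul (A * (1 + 4 / A))).mono' ?_ (Filter.Eventually.of_forall fun y => ?_)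
      · refine ((hρ.meas.mul ((G_cont A).comp
          (continuous_const.sub continuous_id)).measurable).aestronglyMeasurable).smul ?_
        exact ((innerSL ℝ).continuous.comp
          ((continuous_const.sub continuous_id).const_smul A).neg).aestronglyMeasurable
      · rw [norm_smul, innerSL_apply_norm, norm_neg, norm_smul, Real.norm_eq_abs, Real.norm_eq_abs,
          abs_of_nonneg (mul_nonneg (hρ.nonneg y) (G_pos _ _).le), abs_of_pos hA]
        calc ρ y * G A (x - y) * (A * ‖x - y‖) = A * ρ y * (G A (x - y) * ‖x - y‖) := by ring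
          _ ≤ A * ρ y * (1 + 4 / A) :=
            mul_le_mul_of_nonneg_left (G_norm hA _) (mul_nonneg hA.le (hρ.nonneg y))
          _ = _ := by ring
    rw [ContinuousLinearMap.integral_apply hi w]
    rw [innerSL_apply_apply, inner_neg_left, inner_smul_left, Mf, real_inner_comm]
    rw [← integral_inner (intM hρ hA x) w]
    have e : ∀ y : Eu (Fin n), ((ρ y * G A (x - y)) • innerSL ℝ (-(A • (x - y)))) w =
        -(A * ⟪w, (ρ y * G A (x - y)) • (x - y)⟫_ℝ) := by
      intro y
      rw [_root_.smul_apply, innerSL_apply_apply, inner_neg_left, inner_smul_left, inner_smul_right,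
        real_inner_comm]
      simp
      ring
    simp_rw [e]
    rw [integral_neg, integral_const_mul]
    simp
  · refine ((hρ.meas.mul ((G_cont A).comp
          (continuous_const.sub continuous_id)).measurable).aestronglyMeasurable).smul ?_
    exact ((innerSL ℝ).continuous.comp
          ((continuous_const.sub continuous_id).const_smul A).neg).aestronglyMeasurable
  · refine (Filter.Eventually.of_forall fun y z _ => ?_)
    show ‖(ρ y * G A (z - y)) • innerSL ℝ (-(A • (z - y)))‖ ≤ A * (1 + 4 / A) * ρ y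
    rw [norm_smul, innerSL_apply_norm, norm_neg, norm_smul, Real.norm_eq_abs, Real.norm_eq_abs,
          abs_of_nonneg (mul_nonneg (hρ.nonneg y) (G_pos _ _).le), abs_of_pos hA]
    calc ρ y * G A (z - y) * (A * ‖z - y‖) = A * ρ y * (G A (z - y) * ‖z - y‖) := by ring
          _ ≤ A * ρ y * (1 + 4 / A) :=
            mul_le_mul_of_nonneg_left (G_norm hA _) (mul_nonneg hA.le (hρ.nonneg y))
          _ = _ := by ring

/-- normalising constant -/
noncomputable def Zf (n : ℕ) (A : ℝ) : ℝ := ∫ z : Eu (Fin n), G A z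

theorem Z_pos (hA : 0 < A) : 0 < Zf n A := by
  have h0 : 0 ≤ Zf n A := integral_nonneg fun z => (G_pos _ _).le
  rcases eq_or_lt_of_le h0 with h | h
  · exfalso
    have h1 := (integral_eq_zero_iff_of_nonneg
      (fun z : Eu (Fin n) => (G_pos A z).le) (G_int hA)).1 h.symm
    have h2 : ∀ᵐ z : Eu (Fin n), False := by
      filter_upwards [h1] with z hz
      exact absurd hz (G_pos A z).ne'
    rw [Filter.eventually_false_iff_eq_bot, ae_eq_bot] at h2
    exact (NeZero.ne (volume : Measure (Eu (Fin n)))) h2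
  · exact h

/-- the potential -/
noncomputable def Uf (ρ : Eu (Fin n) → ℝ) (A : ℝ) (x : Eu (Fin n)) : ℝ :=
  Real.log (Zf n A) - Real.log (Pf ρ A x)

/-- its gradient -/
noncomputable def bf (ρ : Eu (Fin n) → ℝ) (A : ℝ) (x : Eu (Fin n)) : Eu (Fin n) :=
  (A / Pf ρ A x) • Mf ρ A x

theorem U_der (hρ : LDn ρ) (hA : 0 < A) (x : Eu (Fin n)) :
    HasFDerivAt (Uf ρ A) (innerSL ℝ (bf ρ A x)) x := by
  have h := ((P_der hρ hA x).log (P_pos hρ hA x).ne').const_sub (Real.log (Zf n A))
  refine h.congr_fderiv ?_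
  ext w
  simp only [_root_.smul_apply, _root_.neg_apply, innerSL_apply_apply, bf, inner_neg_left,
    inner_smul_left, smul_eq_mul]
  simp
  field_simp

theorem exp_U (hρ : LDn ρ) (hA : 0 < A) (x : Eu (Fin n)) :
    Real.exp (-Uf ρ A x) = Pf ρ A x / Zf n A := by
  unfold Uf
  rw [neg_sub, Real.exp_sub, Real.exp_log (P_pos hρ hA x), Real.exp_log (Z_pos hA)]

/-- descent: Jensen's inequality for the posterior -/
theorem U_desc (hρ : LDn ρ) (hA : 0 < A) (x y : Eu (Fin n)) :
    Uf ρ A y ≤ Uf ρ A x + ⟪bf ρ A x, y - x⟫_ℝ + A / 2 * ‖y - x‖ ^ 2 := by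
  set c : ℝ := -⟪bf ρ A x, y - x⟫_ℝ - A / 2 * ‖y - x‖ ^ 2 with hc
  have hP := P_pos hρ hA x
  have hPy := P_pos hρ hA y
  -- the pointwise inequality
  have h1 : ∀ z, Real.exp c * (ρ z * G A (x - z) * (1 + (-(A * ⟪x - z, y - x⟫_ℝ) -
      A / 2 * ‖y - x‖ ^ 2 - c))) ≤ ρ z * G A (y - z) := by
    intro z
    set u : ℝ := -(A * ⟪x - z, y - x⟫_ℝ) - A / 2 * ‖y - x‖ ^ 2 with hu
    have e : G A (y - z) = G A (x - z) * Real.exp u := by
      unfold G
      rw [← Real.exp_add]
      congr 1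
      have : y - z = (x - z) + (y - x) := by abel
      rw [this, norm_add_sq_real, hu]
      ring
    rw [e]
    have h2 : 1 + (u - c) ≤ Real.exp (u - c) := by linarith [Real.add_one_le_exp (u - c)]
    have h3 : Real.exp u = Real.exp c * Real.exp (u - c) := by rw [← Real.exp_add]; congr 1; ring
    rw [h3]
    have h4 : 0 ≤ Real.exp c * (ρ z * G A (x - z)) :=
      mul_nonneg (Real.exp_pos _).le (mul_nonneg (hρ.nonneg z) (G_pos _ _).le)
    calc _ = Real.exp c * (ρ z * G A (x - z)) * (1 + (u - c)) := by ring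
      _ ≤ Real.exp c * (ρ z * G A (x - z)) * Real.exp (u - c) := mul_le_mul_of_nonneg_left h2 h4
      _ = _ := by ring
  have hi1 : Integrable fun z => ρ z * G A (x - z) * (1 - A / 2 * ‖y - x‖ ^ 2 - c) :=
    (intP hρ hA x).mul_const _
  have hi2 : Integrable fun z => ⟪y - x, (ρ z * G A (x - z)) • (x - z)⟫_ℝ :=
    (intM hρ hA x).const_inner (y - x)
  have e2 : ∀ z, Real.exp c * (ρ z * G A (x - z) * (1 + (-(A * ⟪x - z, y - x⟫_ℝ) -
      A / 2 * ‖y - x‖ ^ 2 - c))) = Real.exp c * (ρ z * G A (x - z) * (1 - A / 2 * ‖y - x‖ ^ 2 - c) -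
        A * ⟪y - x, (ρ z * G A (x - z)) • (x - z)⟫_ℝ) := by
    intro z
    rw [inner_smul_right, real_inner_comm]
    ring
  have h5 : ∫ z, Real.exp c * (ρ z * G A (x - z) * (1 - A / 2 * ‖y - x‖ ^ 2 - c) -
        A * ⟪y - x, (ρ z * G A (x - z)) • (x - z)⟫_ℝ) ≤ Pf ρ A y := by
    refine integral_mono ((hi1.sub (hi2.const_mul A)).const_mul _) (intP hρ hA y) fun z => ?_
    have := h1 z
    rw [e2] at this
    exact this
  rw [integral_const_mul, integral_sub hi1 (hi2.const_mul A), integral_mul_const,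
    integral_const_mul, integral_inner (intM hρ hA x)] at h5
  have h6 : ⟪bf ρ A x, y - x⟫_ℝ = A / Pf ρ A x * ⟪y - x, Mf ρ A x⟫_ℝ := by
    rw [bf, inner_smul_left, real_inner_comm]; simp
  have h7 : (∫ z, ρ z * G A (x - z)) * (1 - A / 2 * ‖y - x‖ ^ 2 - c) -
      A * ⟪y - x, ∫ z, (ρ z * G A (x - z)) • (x - z)⟫_ℝ = Pf ρ A x := by
    change Pf ρ A x * (1 - A / 2 * ‖y - x‖ ^ 2 - c) - A * ⟪y - x, Mf ρ A x⟫_ℝ = Pf ρ A x
    rw [hc, h6]
    field_simp
    ring
  rw [h7] at h5
  have h8 : c + Real.log (Pf ρ A x) ≤ Real.log (Pf ρ A y) := by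
    rw [← Real.log_exp c, ← Real.log_mul (Real.exp_pos c).ne' hP.ne']
    exact Real.log_le_log (mul_pos (Real.exp_pos _) hP) h5
  unfold Uf
  rw [hc] at h8
  linarith

end Pool.Agent.J4H57.OC
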