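import Pool.Agent.J4H57.OC.A2
import Pool.Agent.TH264.MP.PL

/-!
# Potentials of Gaussian convolutions (project OC, S_APX), part 3: convexity, integrability
-/

set_option autoImplicit false

namespace Pool.Agent.J4H57.OC

open MeasureTheory Set Filter Topology
open scoped ENNReal InnerProductSpace Convolution
open Pool.Agent.W695.KH (Eu EU Sm Pot)
open Pool.Agent.J4H58.OC (LDn S_APX)

/-- Prékopa–Leindler on Euclidean space -/
theorem pl_E (n : ℕ) (s : ℝ) (hs : 0 < s) (hs1 : s < 1) (f g h : Eu (Fin n) → ℝ≥0∞)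
    (hf : Measurable f) (hg : Measurable g) (hh : Measurable h)
    (H : ∀ x y, f x ^ s * g y ^ (1 - s) ≤ h (s • x + (1 - s) • y)) :
    (∫⁻ x, f x) ^ s * (∫⁻ x, g x) ^ (1 - s) ≤ ∫⁻ x, h x := by
  have hmp := (EuclideanSpace.volume_preserving_symm_measurableEquiv_toLp (Fin n)).symm
  have key : ∀ F : Eu (Fin n) → ℝ≥0∞, Measurable F →
      ∫⁻ x, F x = ∫⁻ s : Fin n → ℝ, F (WithLp.toLp 2 s) := by
    intro F hF
    exact (hmp.lintegral_comp hF).symm
  rw [key f hf, key g hg, key h hh]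
  have hcont : Measurable (fun s : Fin n → ℝ => (WithLp.toLp 2 s : Eu (Fin n))) := hmp.measurable
  refine Pool.Agent.TH264.MP.pl n s hs hs1 (fun s => f (WithLp.toLp 2 s))
    (fun s => g (WithLp.toLp 2 s)) (fun s => h (WithLp.toLp 2 s)) (hf.comp hcont)
    (hg.comp hcont) (hh.comp hcont) ?_
  intro x y
  have := H (WithLp.toLp 2 x) (WithLp.toLp 2 y)
  have e : s • (WithLp.toLp 2 x : Eu (Fin n)) + (1 - s) • (WithLp.toLp 2 y : Eu (Fin n)) =
      WithLp.toLp 2 (s • x + (1 - s) • y) := rfl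
  rw [e] at this
  exact this

variable {n : ℕ} {ρ : Eu (Fin n) → ℝ} {A : ℝ}

theorem sq_conv (a b : Eu (Fin n)) (t : ℝ) (h0 : 0 < t) (h1 : t < 1) :
    ‖(1 - t) • a + t • b‖ ^ 2 ≤ (1 - t) * ‖a‖ ^ 2 + t * ‖b‖ ^ 2 := by
  rw [norm_add_sq_real, norm_smul, norm_smul, inner_smul_left, inner_smul_right,
    Real.norm_eq_abs, Real.norm_eq_abs, abs_of_pos h0, abs_of_pos (by linarith : (0:ℝ) < 1 - t)]
  have h2 : ⟪a, b⟫_ℝ ≤ ‖a‖ * ‖b‖ := real_inner_le_norm _ _
  simp only [conj_trivial]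
  have h3 : (0:ℝ) < (1 - t) * t := mul_pos (by linarith) h0
  nlinarith [sq_nonneg (‖a‖ - ‖b‖), mul_le_mul_of_nonneg_left h2 h3.le,
    mul_nonneg h3.le (sq_nonneg (‖a‖ - ‖b‖))]

theorem G_logc (hA : 0 < A) (a b : Eu (Fin n)) (t : ℝ) (h0 : 0 < t) (h1 : t < 1) :
    G A a ^ (1 - t) * G A b ^ t ≤ G A ((1 - t) • a + t • b) := by
  unfold G
  rw [← Real.exp_mul, ← Real.exp_mul, ← Real.exp_add]
  apply Real.exp_le_exp.2
  have := mul_le_mul_of_nonneg_left (sq_conv a b t h0 h1) (by positivity : (0:ℝ) ≤ A / 2)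
  linarith

theorem P_logc (hρ : LDn ρ) (hA : 0 < A) (x y : Eu (Fin n)) (t : ℝ) (h0 : 0 < t) (h1 : t < 1) :
    Pf ρ A x ^ (1 - t) * Pf ρ A y ^ t ≤ Pf ρ A ((1 - t) • x + t • y) := by
  have hm : ∀ z : Eu (Fin n), Measurable fun y => ENNReal.ofReal (ρ y * G A (z - y)) := fun z =>
    (hρ.meas.mul ((G_cont A).comp (continuous_const.sub continuous_id)).measurable).ennreal_ofReal
  have key := pl_E n (1 - t) (by linarith) (by linarith)
    (fun u => ENNReal.ofReal (ρ u * G A (x - u))) (fun u => ENNReal.ofReal (ρ u * G A (y - u)))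
    (fun u => ENNReal.ofReal (ρ u * G A (((1 - t) • x + t • y) - u))) (hm _) (hm _) (hm _) ?_
  · have e : ∀ z : Eu (Fin n), ∫⁻ u, ENNReal.ofReal (ρ u * G A (z - u)) =
        ENNReal.ofReal (Pf ρ A z) := by
      intro z
      rw [Pf, ofReal_integral_eq_lintegral_ofReal (intP hρ hA z)]
      exact Filter.Eventually.of_forall fun u => mul_nonneg (hρ.nonneg u) (G_pos _ _).le
    rw [e, e, e, ENNReal.ofReal_rpow_of_pos (P_pos hρ hA x),
      ENNReal.ofReal_rpow_of_pos (P_pos hρ hA y),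
      ← ENNReal.ofReal_mul (Real.rpow_nonneg (P_pos hρ hA x).le _)] at key
    have := (ENNReal.ofReal_le_ofReal_iff (P_pos hρ hA _).le).1 key
    rwa [sub_sub_cancel] at this
  · intro u v
    rw [sub_sub_cancel]
    have hu : 0 ≤ ρ u * G A (x - u) := mul_nonneg (hρ.nonneg u) (G_pos _ _).le
    have hv : 0 ≤ ρ v * G A (y - v) := mul_nonneg (hρ.nonneg v) (G_pos _ _).le
    rw [ENNReal.ofReal_rpow_of_nonneg hu (by linarith), ENNReal.ofReal_rpow_of_nonneg hv h0.le,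
      ← ENNReal.ofReal_mul (Real.rpow_nonneg hu _)]
    apply ENNReal.ofReal_le_ofReal
    rw [Real.mul_rpow (hρ.nonneg u) (G_pos _ _).le, Real.mul_rpow (hρ.nonneg v) (G_pos _ _).le]
    have e : ((1 - t) • x + t • y) - ((1 - t) • u + t • v) =
        (1 - t) • (x - u) + t • (y - v) := by
      rw [smul_sub, smul_sub]; abel
    rw [e]
    calc ρ u ^ (1 - t) * G A (x - u) ^ (1 - t) * (ρ v ^ t * G A (y - v) ^ t)
        = (ρ u ^ (1 - t) * ρ v ^ t) * (G A (x - u) ^ (1 - t) * G A (y - v) ^ t) := by ring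
      _ ≤ ρ ((1 - t) • u + t • v) * G A ((1 - t) • (x - u) + t • (y - v)) :=
          mul_le_mul (hρ.logc u v t h0 h1) (G_logc hA _ _ t h0 h1)
            (mul_nonneg (Real.rpow_nonneg (G_pos _ _).le _) (Real.rpow_nonneg (G_pos _ _).le _))
            (hρ.nonneg _)

theorem U_conv (hρ : LDn ρ) (hA : 0 < A) (x y : Eu (Fin n)) (t : ℝ) (h0 : 0 < t) (h1 : t < 1) :
    Uf ρ A ((1 - t) • x + t • y) ≤ (1 - t) * Uf ρ A x + t * Uf ρ A y := by
  have h := P_logc hρ hA x y t h0 h1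
  have hx := P_pos hρ hA x
  have hy := P_pos hρ hA y
  have h2 := Real.log_le_log (mul_pos (Real.rpow_pos_of_pos hx _) (Real.rpow_pos_of_pos hy _)) h
  rw [Real.log_mul (Real.rpow_pos_of_pos hx _).ne' (Real.rpow_pos_of_pos hy _).ne',
    Real.log_rpow hx, Real.log_rpow hy] at h2
  unfold Uf
  nlinarith

/-- cocoercivity of the gradient -/
theorem b_coco (hρ : LDn ρ) (hA : 0 < A) (x y : Eu (Fin n)) :
    ‖bf ρ A x - bf ρ A y‖ ^ 2 ≤ A * ⟪bf ρ A x - bf ρ A y, x - y⟫_ℝ :=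
  coco (Uf ρ A) (bf ρ A) A hA
    (tangent (Uf ρ A) (bf ρ A) (U_der hρ hA) (U_conv hρ hA)) (U_desc hρ hA) x y

/-- Cauchy–Schwarz -/
theorem M_sq (hρ : LDn ρ) (hA : 0 < A) (x : Eu (Fin n)) :
    ‖Mf ρ A x‖ ^ 2 ≤ Pf ρ A x * Rf ρ A x := by
  have hP := P_pos hρ hA x
  set N : ℝ := ∫ y, ‖(ρ y * G A (x - y)) • (x - y)‖ with hN
  have h1 : ‖Mf ρ A x‖ ≤ N := norm_integral_le_integral_norm _
  set l : ℝ := N / Pf ρ A x with hl
  have hiN := (intM hρ hA x).norm
  have e : ∀ y : Eu (Fin n), ρ y * G A (x - y) * (‖x - y‖ - l) ^ 2 =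
      ρ y * (G A (x - y) * ‖x - y‖ ^ 2) - 2 * l * ‖(ρ y * G A (x - y)) • (x - y)‖ +
        l ^ 2 * (ρ y * G A (x - y)) := by
    intro y
    rw [norm_smul, Real.norm_eq_abs, abs_of_nonneg (mul_nonneg (hρ.nonneg y) (G_pos _ _).le)]
    ring
  have h2 : 0 ≤ ∫ y, ρ y * G A (x - y) * (‖x - y‖ - l) ^ 2 :=
    integral_nonneg fun y => mul_nonneg (mul_nonneg (hρ.nonneg y) (G_pos _ _).le) (sq_nonneg _)
  simp_rw [e] at h2
  have i1 : Integrable fun y => 2 * l * ‖(ρ y * G A (x - y)) • (x - y)‖ := hiN.const_mul _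
  have i2 : Integrable fun y => ρ y * (G A (x - y) * ‖x - y‖ ^ 2) -
      2 * l * ‖(ρ y * G A (x - y)) • (x - y)‖ := (intR hρ hA x).sub i1
  rw [integral_add i2 ((intP hρ hA x).const_mul _),
    integral_sub (intR hρ hA x) i1, integral_const_mul, integral_const_mul] at h2
  change 0 ≤ Rf ρ A x - 2 * l * N + l ^ 2 * Pf ρ A x at h2
  have e2 : Rf ρ A x - 2 * l * N + l ^ 2 * Pf ρ A x = Rf ρ A x - N ^ 2 / Pf ρ A x := by
    rw [hl]; field_simp; ring
  rw [e2] at h2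
  have h3 : N ^ 2 ≤ Pf ρ A x * Rf ρ A x := by
    have : N ^ 2 / Pf ρ A x ≤ Rf ρ A x := by linarith
    rw [div_le_iff₀ hP] at this
    linarith
  calc ‖Mf ρ A x‖ ^ 2 ≤ N ^ 2 := by gcongr
    _ ≤ _ := h3

theorem P_int (hρ : LDn ρ) (hA : 0 < A) : Integrable (Pf ρ A) :=
  Integrable.integrable_convolution (ContinuousLinearMap.mul ℝ ℝ) hρ.int (G_int hA)

theorem R_int (hρ : LDn ρ) (hA : 0 < A) : Integrable (Rf ρ A) :=
  Integrable.integrable_convolution (ContinuousLinearMap.mul ℝ ℝ) hρ.int (G2_int hA)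

theorem P_one (hρ : LDn ρ) (hA : 0 < A) : ∫ x, Pf ρ A x = Zf n A := by
  have h := integral_convolution (ContinuousLinearMap.mul ℝ ℝ) (μ := volume) (ν := volume)
    hρ.int (G_int (n := n) hA)
  rw [hρ.one] at h
  simp only [ContinuousLinearMap.mul_apply', one_mul] at h
  exact h

theorem pot (hρ : LDn ρ) (hA : 0 < A) : Pot (Uf ρ A) (bf ρ A) A where
  pos := hA
  der := U_der hρ hA
  lip := lip_of_coco _ A hA (b_coco hρ hA)
  contr := fun h h0 h1 x y => contr_of_coco _ A hA (b_coco hρ hA) h h0 h1 x y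
  int := by
    have hl := lip_of_coco _ A hA (b_coco hρ hA)
    have hcb : Continuous (bf ρ A) := by
      have : LipschitzWith (Real.toNNReal A) (bf ρ A) := LipschitzWith.of_dist_le_mul fun x y => by
        rw [dist_eq_norm, dist_eq_norm, Real.coe_toNNReal A hA.le]
        exact hl x y
      exact this.continuous
    have hcU : Continuous (Uf ρ A) :=
      continuous_iff_continuousAt.2 fun x => (U_der hρ hA x).continuousAt
    have hi : Integrable fun x => (Zf n A)⁻¹ * (Pf ρ A x + A ^ 2 * Rf ρ A x) :=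
      ((P_int hρ hA).add ((R_int hρ hA).const_mul _)).const_mul _
    refine hi.mono' ?_ (Filter.Eventually.of_forall fun x => ?_)
    · exact ((continuous_const.add (hcb.norm.pow 2)).mul
        (Real.continuous_exp.comp hcU.neg)).aestronglyMeasurable
    · rw [Real.norm_eq_abs, abs_of_nonneg (by positivity), exp_U hρ hA]
      have hP := P_pos hρ hA x
      have hZ := Z_pos (n := n) hA
      have h1 : ‖bf ρ A x‖ ^ 2 * Pf ρ A x ≤ A ^ 2 * Rf ρ A x := by
        rw [bf, norm_smul, mul_pow, Real.norm_eq_abs, sq_abs]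
        calc (A / Pf ρ A x) ^ 2 * ‖Mf ρ A x‖ ^ 2 * Pf ρ A x
            = A ^ 2 / Pf ρ A x * ‖Mf ρ A x‖ ^ 2 := by field_simp
          _ ≤ A ^ 2 / Pf ρ A x * (Pf ρ A x * Rf ρ A x) :=
            mul_le_mul_of_nonneg_left (M_sq hρ hA x) (by positivity)
          _ = A ^ 2 * Rf ρ A x := by field_simp
      calc (1 + ‖bf ρ A x‖ ^ 2) * (Pf ρ A x / Zf n A)
          = (Zf n A)⁻¹ * (Pf ρ A x + ‖bf ρ A x‖ ^ 2 * Pf ρ A x) := by field_simp
        _ ≤ (Zf n A)⁻¹ * (Pf ρ A x + A ^ 2 * Rf ρ A x) := by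
          apply mul_le_mul_of_nonneg_left _ (by positivity)
          linarith

theorem EU_one (hρ : LDn ρ) (hA : 0 < A) : EU (Uf ρ A) (fun _ => 1) = 1 := by
  unfold EU
  simp_rw [exp_U hρ hA, one_mul]
  rw [integral_div, P_one hρ hA]
  exact div_self (Z_pos hA).ne'

end Pool.Agent.J4H57.OC
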